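import Pool.Agent.N343.LT.Stm
import Pool.Agent.Y819.ZF.CntF
import Pool.Agent.Y438.ZF.Alt
import Pool.Agent.Y592.ZF.GC

/-!
# Project LT, LT/ONE: perfect matchings and the linear coefficient of the Pfaffian
-/

set_option autoImplicit false
set_option linter.all false

namespace Pool.Agent.N521.LT.ONE

open MvPolynomial Finset Pool.Agent.Helper929 Pool.Agent.H604R2.LEC Pool.Agent.Y819.ZF
  Pool.Agent.N343.LT

section scaling

variable {R : Type} [CommRing R] {n : ℕ} {E : Type} [Fintype E]

/-- the number of the ends of an edge at the vertex `i₀` -/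
def ae (i₀ : Fin n) (τ η : E → Fin n) (e : E) : ℕ :=
  (if τ e = i₀ then 1 else 0) + (if η e = i₀ then 1 else 0)

/-- the weight -/
noncomputable def ww (R : Type) [CommRing R] (E : Type) (i₀ : Fin n) (i : Fin n) :
    MvPolynomial E (Polynomial R) :=
  if i = i₀ then C Polynomial.X else 1

/-- scaling of the variables -/
noncomputable def phi (R : Type) [CommRing R] {E : Type} [Fintype E] (i₀ : Fin n) (τ η : E → Fin n) :
    MvPolynomial E R →+* MvPolynomial E (Polynomial R) :=
  eval₂Hom ((C : Polynomial R →+* MvPolynomial E (Polynomial R)).comp Polynomial.C)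
    (fun e => C (Polynomial.X ^ ae i₀ τ η e) * X e)

theorem phi_X (i₀ : Fin n) (τ η : E → Fin n) (e : E) :
    phi R i₀ τ η (X e) = C (Polynomial.X ^ ae i₀ τ η e) * X e := by
  unfold phi
  rw [coe_eval₂Hom, eval₂_X]

theorem ww_mul (i₀ : Fin n) (τ η : E → Fin n) (e : E) :
    ww R E i₀ (τ e) * ww R E i₀ (η e) = C (Polynomial.X ^ ae i₀ τ η e) := by
  unfold ww ae
  split_ifs <;> simp [pow_succ]

theorem phi_coeff (i₀ : Fin n) (τ η : E → Fin n) (q : MvPolynomial E R) (m : E →₀ ℕ) :
    coeff m (phi R i₀ τ η q) =
      Polynomial.X ^ (∑ e, m e * ae i₀ τ η e) * Polynomial.C (coeff m q) := by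
  classical
  induction q using MvPolynomial.induction_on' with
  | monomial u a =>
    have h1 : phi R i₀ τ η (monomial u a) =
        monomial u (Polynomial.X ^ (∑ e, u e * ae i₀ τ η e) * Polynomial.C a) := by
      unfold phi
      rw [coe_eval₂Hom, eval₂_monomial]
      rw [monomial_eq (s := u) (a := Polynomial.X ^ (∑ e, u e * ae i₀ τ η e) * Polynomial.C a)]
      rw [Finsupp.prod_fintype _ _ (fun i => pow_zero _),
        Finsupp.prod_fintype _ _ (fun i => pow_zero _)]
      simp only [mul_pow, Finset.prod_mul_distrib, RingHom.comp_apply, map_mul, map_pow, ← pow_mul]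
      rw [← map_pow, ← Finset.prod_pow_eq_pow_sum]
      rw [map_prod]
      simp only [map_pow, mul_comm]
      ring
    rw [h1, coeff_monomial, coeff_monomial]
    split_ifs with h
    · rw [h]
    · simp
  | add p q hp hq =>
    rw [map_add, coeff_add, coeff_add, hp, hq, map_add, mul_add]

theorem SM_phi (i₀ : Fin n) (τ η : E → Fin n) :
    (SM R τ η).map (phi R i₀ τ η) =
      Matrix.diagonal (ww R E i₀) * (SM R τ η).map (map Polynomial.C) *
        (Matrix.diagonal (ww R E i₀)).transpose := by
  ext1 i j
  rw [Matrix.diagonal_transpose, Matrix.mul_diagonal, Matrix.diagonal_mul]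
  have hi : ∀ (c : Prop) [Decidable c] (a : MvPolynomial E R),
      phi R i₀ τ η (if c then a else 0) = if c then phi R i₀ τ η a else 0 := by
    intro c _ a
    split_ifs
    · rfl
    · exact map_zero _
  have hj : ∀ (c : Prop) [Decidable c] (a : MvPolynomial E R),
      (map Polynomial.C : MvPolynomial E R →+* MvPolynomial E (Polynomial R)) (if c then a else 0) =
        if c then (map Polynomial.C : MvPolynomial E R →+* MvPolynomial E (Polynomial R)) a else 0 := by
    intro c _ a
    split_ifs
    · rfl
    · exact map_zero _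
  simp only [SM, Matrix.map_apply, Matrix.of_apply, map_sum, map_sub, hi, hj, phi_X, map_X]
  rw [Finset.mul_sum, Finset.sum_mul]
  refine Finset.sum_congr rfl fun e _ => ?_
  rw [mul_sub, sub_mul]
  congr 1
  · split_ifs with h
    · rw [← ww_mul, h.1, h.2]
      ring
    · simp
  · split_ifs with h
    · rw [← ww_mul, h.1, h.2]
      ring
    · simp

theorem phi_pf (i₀ : Fin n) (τ η : E → Fin n) :
    phi R i₀ τ η (pf n (SM R τ η)) =
      C Polynomial.X * map Polynomial.C (pf n (SM R τ η)) := by
  rw [pf_map, pf_map, SM_phi]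
  have h1 : (SM R τ η).map (map Polynomial.C : MvPolynomial E R →+* MvPolynomial E (Polynomial R)) =
      skew (fun e => ((SM R τ η).map
        (map Polynomial.C : MvPolynomial E R →+* MvPolynomial E (Polynomial R))) e.1.1 e.1.2) := by
    refine eq_skew _ ?_ ?_
    · intro i j
      rw [Matrix.map_apply, Matrix.map_apply, ← map_neg]
      congr 1
      simp only [SM, Matrix.of_apply]
      rw [← Finset.sum_neg_distrib]
      refine Finset.sum_congr rfl fun e _ => ?_
      rw [neg_sub]
    · intro i
      simp only [SM, Matrix.map_apply, Matrix.of_apply, sub_self, Finset.sum_const_zero, map_zero]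
  rw [h1, pf_gram_ring, ← h1, Matrix.det_diagonal]
  congr 1
  unfold ww
  rw [Finset.prod_ite_eq' univ i₀ (fun _ => (C Polynomial.X : MvPolynomial E (Polynomial R)))]
  simp

theorem deg_of_cc (d : ℕ) (i₀ : Fin n) (τ η : E → Fin n) (h : cc R d τ η ≠ 0) :
    (univ.filter fun e => τ e = i₀).card + (univ.filter fun e => η e = i₀).card = d := by
  have h1 := congrArg (fun q => coeff (oneE E) (q ^ d)) (phi_pf (R := R) i₀ τ η)
  simp only [mul_pow] at h1
  rw [← map_pow, ← map_pow, ← map_pow, coeff_C_mul, phi_coeff, coeff_map] at h1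
  have h2 : ∑ e, (oneE E) e * ae i₀ τ η e =
      (univ.filter fun e => τ e = i₀).card + (univ.filter fun e => η e = i₀).card := by
    simp only [oneE, ae, Finsupp.equivFunOnFinite_symm_apply_apply, one_mul, Finset.sum_add_distrib,
      Finset.card_filter]
  rw [h2] at h1
  have h3 := congrArg (fun q => Polynomial.coeff q d) h1
  simp only [Polynomial.coeff_X_pow_mul', Polynomial.coeff_C] at h3
  by_contra hne
  rw [if_pos le_rfl, Nat.sub_self, if_pos rfl] at h3
  have h4 : coeff (oneE E) (pf n (SM R τ η) ^ d) = cc R d τ η := rfl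
  split_ifs at h3 with h5 h6
  · omega
  · exact h h3.symm
  · exact h h3.symm

end scaling

theorem main : S_ONE := by
  intro p hp n E _ τ η hne
  constructor
  · intro h i
    exact deg_of_cc 1 i τ η h
  · intro h
    classical
    have hex : ∀ v, ∃ e, v = τ e ∨ v = η e := by
      intro v
      have := h v
      by_contra hcon
      push Not at hcon
      have h1 : (univ.filter fun e => τ e = v).card = 0 := by
        rw [Finset.card_eq_zero, Finset.filter_eq_empty_iff]
        intro e _ h2
        exact (hcon e).1 h2.symm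
      have h2 : (univ.filter fun e => η e = v).card = 0 := by
        rw [Finset.card_eq_zero, Finset.filter_eq_empty_iff]
        intro e _ h2
        exact (hcon e).2 h2.symm
      omega
    choose f hf using hex
    have huniq : ∀ v e, (v = τ e ∨ v = η e) → e = f v := by
      intro v e he
      by_contra hcon
      have hv := h v
      have h1 : ({e, f v} : Finset E) ⊆
          (univ.filter fun e => τ e = v) ∪ (univ.filter fun e => η e = v) := by
        intro x hx
        rw [Finset.mem_insert, Finset.mem_singleton] at hx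
        rw [Finset.mem_union, Finset.mem_filter, Finset.mem_filter]
        rcases hx with rfl | rfl
        · rcases he with h2 | h2
          · exact Or.inl ⟨mem_univ _, h2.symm⟩
          · exact Or.inr ⟨mem_univ _, h2.symm⟩
        · rcases hf v with h2 | h2
          · exact Or.inl ⟨mem_univ _, h2.symm⟩
          · exact Or.inr ⟨mem_univ _, h2.symm⟩
      have h2 := Finset.card_le_card h1
      rw [Finset.card_pair hcon] at h2
      have h3 := Finset.card_union_le (univ.filter fun e => τ e = v) (univ.filter fun e => η e = v)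
      omega
    obtain ⟨ε, hε, hNN⟩ := Pool.Agent.Y819.ZF.CntF.main n 1 E τ η (fun v _ => f v) hne
      (fun v i j _ => Subsingleton.elim _ _) (by
        intro v e
        constructor
        · rintro ⟨_, rfl⟩
          exact hf v
        · intro he
          exact ⟨0, (huniq v e he).symm⟩)
    have h1 : Pool.Agent.W426.LE.NN (Equiv.refl (Fin 1)) (fun v (_ : Fin 1) => f v) = 1 := by
      unfold Pool.Agent.W426.LE.NN
      have hs : ∀ g : Fin 1 → Fin 1, Pool.Agent.W426.LE.sg (Equiv.refl (Fin 1)) g = 1 := by
        intro g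
        unfold Pool.Agent.W426.LE.sg
        rw [dif_pos ⟨fun _ _ _ => Subsingleton.elim _ _, fun b => ⟨b, Subsingleton.elim _ _⟩⟩]
        have h5 : ∀ (inst : DecidableEq (Fin 1)) (e : Equiv.Perm (Fin 1)),
            ((@Equiv.Perm.sign (Fin 1) inst _ e : ℤˣ) : ℤ) = 1 := by
          intro _ e
          rw [Subsingleton.elim e 1]
          simp
        exact h5 _ _
      rw [Finset.sum_congr rfl fun x _ => Finset.prod_congr rfl fun v _ => hs _]
      simp
    rw [h1] at hNN
    rw [← Pool.Agent.Y592.ZF.cc_cast]
    intro h2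
    have h3 := congrArg (Int.cast : ℤ → ZMod p) hNN
    rw [Int.cast_mul, h2, mul_zero, Int.cast_one] at h3
    exact one_ne_zero h3

end Pool.Agent.N521.LT.ONE
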